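import Pool.Agent.helper75.IQ.Spec

/-!
# Row iq:BVO: the volume of the ball
-/

set_option autoImplicit false

namespace Pool.Agent.helper75.IQ

open MeasureTheory Set

theorem BVO_pos {κ R w : ℝ} (hκ : κ ≤ 0) (hR : -4 < κ * R ^ 2) (hw : w ≤ R ^ 2) : 0 < 1 + κ / 4 * w := by
  have h1 : κ * R ^ 2 ≤ κ * w := mul_le_mul_of_nonpos_left hw hκ
  linarith

theorem BVO_lam_cont {κ R : ℝ} (hκ : κ ≤ 0) (hR : -4 < κ * R ^ 2) :
    ContinuousOn (lam κ) (Iic (R ^ 2)) := by
  unfold lam
  refine ContinuousOn.inv₀ (by fun_prop) fun w hw => ?_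
  exact (BVO_pos hκ hR hw).ne'

theorem BVO_der {κ R w : ℝ} (hκ : κ ≤ 0) (hR : -4 < κ * R ^ 2) (hw : w ≤ R ^ 2) :
    HasDerivAt (fun w => w * lam κ w) (lam κ w ^ 2) w := by
  have h0 := (BVO_pos hκ hR hw).ne'
  have h1 : HasDerivAt (fun w : ℝ => 1 + κ / 4 * w) (κ / 4) w := by
    have := ((hasDerivAt_id w).const_mul (κ / 4)).const_add 1
    simpa using this
  have h2 := (hasDerivAt_id w).mul (h1.inv h0)
  have e : (1 : ℝ) * (1 + κ / 4 * w)⁻¹ + w * (-(κ / 4) / (1 + κ / 4 * w) ^ 2) = lam κ w ^ 2 := by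
    unfold lam
    field_simp
    ring
  have h3 : HasDerivAt (fun w => w * lam κ w)
      ((1 : ℝ) * (1 + κ / 4 * w)⁻¹ + w * (-(κ / 4) / (1 + κ / 4 * w) ^ 2)) w := h2
  rwa [e] at h3

/-- the function of `w` whose integral over the plane is the volume -/
noncomputable def BVO_Phi (κ τ R w : ℝ) : ENNReal :=
  (Iic (R ^ 2)).indicator (fun w => ENNReal.ofReal (lam κ w ^ 2 * (2 * hgt κ τ R w))) w

theorem BVO_Phi_meas {κ τ R : ℝ} (hκ : κ ≤ 0) (hR : -4 < κ * R ^ 2)
    (hc : ContinuousOn (hgt κ τ R) (Iic (R ^ 2))) : Measurable (BVO_Phi κ τ R) := by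
  classical
  have h1 : ContinuousOn (fun w => ENNReal.ofReal (lam κ w ^ 2 * (2 * hgt κ τ R w))) (Iic (R ^ 2)) := by
    apply ENNReal.continuous_ofReal.comp_continuousOn
    exact ((BVO_lam_cont hκ hR).pow 2).mul (continuousOn_const.mul hc)
  have h2 := ContinuousOn.measurable_piecewise h1 (continuousOn_const (c := (0 : ENNReal)) (s := (Iic (R ^ 2))ᶜ))
    measurableSet_Iic
  have h3 : BVO_Phi κ τ R = (Iic (R ^ 2)).piecewise
      (fun w => ENNReal.ofReal (lam κ w ^ 2 * (2 * hgt κ τ R w))) (fun _ => (0 : ENNReal)) := by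
    funext w
    unfold BVO_Phi
    by_cases hw : w ∈ Iic (R ^ 2)
    · rw [indicator_of_mem hw, piecewise_eq_of_mem _ _ _ hw]
    · rw [indicator_of_notMem hw, piecewise_eq_of_notMem _ _ _ hw]
  rw [h3]
  exact h2

theorem BVO_ball_closed {κ τ R : ℝ} (hc : ContinuousOn (hgt κ τ R) (Iic (R ^ 2))) :
    MeasurableSet (ball κ τ R) := by
  have h0 : Continuous fun p : Sp => nq (pr p) := by
    unfold nq pr
    fun_prop
  have hcl : IsClosed {p : Sp | nq (pr p) ≤ R ^ 2} := isClosed_le h0 continuous_const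
  have h1 : ContinuousOn (fun p : Sp => |p.2.2| - hgt κ τ R (nq (pr p))) {p : Sp | nq (pr p) ≤ R ^ 2} := by
    apply ContinuousOn.sub
    · exact (by fun_prop : Continuous fun p : Sp => |p.2.2|).continuousOn
    · exact hc.comp h0.continuousOn fun p hp => hp
  have h2 := h1.preimage_isClosed_of_isClosed hcl (isClosed_Iic (a := (0 : ℝ)))
  have e : ball κ τ R = {p : Sp | nq (pr p) ≤ R ^ 2} ∩
      (fun p : Sp => |p.2.2| - hgt κ τ R (nq (pr p))) ⁻¹' Iic 0 := by
    ext p
    simp only [ball, mem_setOf_eq, mem_inter_iff, mem_preimage, mem_Iic, sub_nonpos]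
  rw [e]
  exact h2.measurableSet

theorem BVO_nq_meas : Measurable nq := by
  unfold nq
  fun_prop

theorem BVO (hPOL : POL_stmt) (hHGT : HGT_stmt) : BVO_stmt := by
  intro κ τ R hκ hR hk
  obtain ⟨hint, hz, hc, hpos, hder, hdc⟩ := hHGT κ τ R hκ hR hk
  have hnn : ∀ w, 0 ≤ w → w ≤ R ^ 2 → 0 ≤ hgt κ τ R w := by
    intro w h0 h1
    rcases h1.lt_or_eq with h | h
    · exact (hpos w h0 h).le
    · rw [h, hz]
  -- Fubini
  have hfub : vol κ (ball κ τ R) = ∫⁻ q : ℝ × ℝ, BVO_Phi κ τ R (nq q) := by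
    unfold vol
    rw [← lintegral_indicator (BVO_ball_closed hc)]
    have hm0 : Measurable fun p : Sp => ENNReal.ofReal (lam κ (nq (pr p)) ^ 2) := by
      unfold lam nq pr
      fun_prop
    have hm : Measurable ((ball κ τ R).indicator fun p : Sp => ENNReal.ofReal (lam κ (nq (pr p)) ^ 2)) :=
      hm0.indicator (BVO_ball_closed hc)
    have hm2 : Measurable fun q : ℝ × ℝ => BVO_Phi κ τ R (nq q) :=
      (BVO_Phi_meas hκ hk hc).comp BVO_nq_meas
    rw [Measure.volume_eq_prod, lintegral_prod _ hm.aemeasurable, Measure.volume_eq_prod,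
      lintegral_prod _ hm2.aemeasurable]
    refine lintegral_congr fun x => ?_
    have hx : Measurable fun z : ℝ × ℝ => (ball κ τ R).indicator
        (fun p : Sp => ENNReal.ofReal (lam κ (nq (pr p)) ^ 2)) ((x, z) : Sp) :=
      hm.comp measurable_prodMk_left
    refine (lintegral_prod _ hx.aemeasurable).trans ?_
    refine lintegral_congr fun y => ?_
    by_cases hw : nq (x, y) ≤ R ^ 2
    · have e1 : (fun t : ℝ => (ball κ τ R).indicator
          (fun p : Sp => ENNReal.ofReal (lam κ (nq (pr p)) ^ 2)) ((x, y, t) : Sp)) =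
          (Icc (-hgt κ τ R (nq (x, y))) (hgt κ τ R (nq (x, y)))).indicator
            (fun _ => ENNReal.ofReal (lam κ (nq (x, y)) ^ 2)) := by
        funext t
        by_cases ht : |t| ≤ hgt κ τ R (nq (x, y))
        · have h1 : ((x, y, t) : Sp) ∈ ball κ τ R := ⟨hw, ht⟩
          have h2 : t ∈ Icc (-hgt κ τ R (nq (x, y))) (hgt κ τ R (nq (x, y))) := abs_le.1 ht
          rw [indicator_of_mem h1, indicator_of_mem h2]
          rfl
        · have h1 : ((x, y, t) : Sp) ∉ ball κ τ R := fun h => ht h.2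
          have h2 : t ∉ Icc (-hgt κ τ R (nq (x, y))) (hgt κ τ R (nq (x, y))) := fun h => ht (abs_le.2 h)
          rw [indicator_of_notMem h1, indicator_of_notMem h2]
      rw [e1, lintegral_indicator measurableSet_Icc, setLIntegral_const, Real.volume_Icc]
      unfold BVO_Phi
      rw [indicator_of_mem (show nq (x, y) ∈ Iic (R ^ 2) from hw), ← ENNReal.ofReal_mul (sq_nonneg _)]
      congr 1
      ring
    · have e1 : (fun t : ℝ => (ball κ τ R).indicator
          (fun p : Sp => ENNReal.ofReal (lam κ (nq (pr p)) ^ 2)) ((x, y, t) : Sp)) = fun _ => 0 := by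
        funext t
        have h1 : ((x, y, t) : Sp) ∉ ball κ τ R := fun h => hw h.1
        rw [indicator_of_notMem h1]
      rw [e1, lintegral_zero]
      unfold BVO_Phi
      rw [indicator_of_notMem (show nq (x, y) ∉ Iic (R ^ 2) from hw)]
  rw [hfub, ← lintegral_map (BVO_Phi_meas hκ hk hc) BVO_nq_meas, hPOL, lintegral_smul_measure]
  -- one dimensional integral
  have hR2 : (0 : ℝ) ≤ R ^ 2 := sq_nonneg R
  have hlc := BVO_lam_cont hκ hk
  have hgc : ContinuousOn (fun w => lam κ w ^ 2 * (2 * hgt κ τ R w)) (Icc 0 (R ^ 2)) :=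
    ((hlc.pow 2).mul (continuousOn_const.mul hc)).mono fun w hw => hw.2
  have h1 : ∫⁻ w in Ioi (0 : ℝ), BVO_Phi κ τ R w =
      ENNReal.ofReal (∫ w in (0 : ℝ)..R ^ 2, lam κ w ^ 2 * (2 * hgt κ τ R w)) := by
    unfold BVO_Phi
    rw [lintegral_indicator measurableSet_Iic, Measure.restrict_restrict measurableSet_Iic,
      inter_comm, Ioi_inter_Iic, intervalIntegral.integral_of_le hR2,
      ofReal_integral_eq_lintegral_ofReal]
    · exact (hgc.integrableOn_Icc).mono_set Ioc_subset_Icc_self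
    · refine (ae_restrict_iff' measurableSet_Ioc).2 (Filter.Eventually.of_forall fun w hw => ?_)
      exact mul_nonneg (sq_nonneg _) (mul_nonneg (by norm_num) (hnn w hw.1.le hw.2))
  have hIoo : ∀ w ∈ Ioo (min (0 : ℝ) (R ^ 2)) (max 0 (R ^ 2)), w < R ^ 2 := by
    intro w hw
    rw [max_eq_right hR2] at hw
    exact hw.2
  have huIcc : uIcc (0 : ℝ) (R ^ 2) = Icc 0 (R ^ 2) := uIcc_of_le hR2
  have hi0 := hint 0 hR2
  have hdint : IntervalIntegrable (dh κ τ R) volume 0 (R ^ 2) := by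
    have h2 := hi0.const_mul (-(1 / 2))
    have e : dh κ τ R = fun v => -(1 / 2) * (lam κ v * √((1 + τ ^ 2 * v) / (R ^ 2 - v))) := by
      funext v
      unfold dh
      ring
    rw [e]
    exact h2
  have hparts := intervalIntegral.integral_mul_deriv_eq_deriv_mul_of_hasDeriv_right
    (u := fun w => w * lam κ w) (v := hgt κ τ R) (u' := fun w => lam κ w ^ 2) (v' := dh κ τ R)
    (a := 0) (b := R ^ 2)
    (by
      rw [huIcc]
      exact (continuousOn_id.mul hlc).mono fun w hw => hw.2)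
    (by
      rw [huIcc]
      exact hc.mono fun w hw => hw.2)
    (fun w hw => (BVO_der hκ hk (hIoo w hw).le).hasDerivWithinAt)
    (fun w hw => (hder w (hIoo w hw)).hasDerivWithinAt)
    (by
      apply ContinuousOn.intervalIntegrable
      rw [huIcc]
      exact (hlc.pow 2).mono fun w hw => hw.2)
    hdint
  rw [hz, mul_zero, zero_mul, zero_mul, sub_zero, zero_sub] at hparts
  have h2 : ∫ w in (0 : ℝ)..R ^ 2, lam κ w ^ 2 * (2 * hgt κ τ R w) =
      ∫ w in (0 : ℝ)..R ^ 2, (1 / R) * (w * GG κ τ w / √(1 - w / R ^ 2)) := by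
    have e1 : ∫ w in (0 : ℝ)..R ^ 2, lam κ w ^ 2 * (2 * hgt κ τ R w) =
        2 * ∫ w in (0 : ℝ)..R ^ 2, lam κ w ^ 2 * hgt κ τ R w := by
      rw [← intervalIntegral.integral_const_mul]
      refine intervalIntegral.integral_congr fun w _ => ?_
      ring
    have e2 : ∫ w in (0 : ℝ)..R ^ 2, lam κ w ^ 2 * hgt κ τ R w =
        -∫ w in (0 : ℝ)..R ^ 2, w * lam κ w * dh κ τ R w := by
      rw [hparts, neg_neg]
    rw [e1, e2, ← intervalIntegral.integral_neg, ← intervalIntegral.integral_const_mul]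
    refine intervalIntegral.integral_congr fun w hw => ?_
    rw [huIcc] at hw
    have hrt : √((1 + τ ^ 2 * w) / (R ^ 2 - w)) = 1 / R * (√(1 + τ ^ 2 * w) / √(1 - w / R ^ 2)) := by
      have h3 : 0 ≤ 1 + τ ^ 2 * w := by
        have := hw.1
        positivity
      rw [Real.sqrt_div h3]
      have h4 : R ^ 2 - w = R ^ 2 * (1 - w / R ^ 2) := by
        field_simp
      rw [h4, Real.sqrt_mul hR2, Real.sqrt_sq hR.le]
      field_simp
    simp only [dh, GG]
    rw [hrt]
    ring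
  rw [h1, h2, intervalIntegral.integral_const_mul, smul_eq_mul, ← ENNReal.ofReal_mul Real.pi_pos.le]
  congr 1
  unfold VV
  ring

end Pool.Agent.helper75.IQ
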